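import Mathlib

set_option autoImplicit false

open Filter Topology Metric

namespace Pool.Agent.ASE

/-- `T` is absolutely strongly exposing. -/
def IsASE {𝕂 X Y : Type*} [RCLike 𝕂] [NormedAddCommGroup X] [NormedSpace 𝕂 X]
    [NormedAddCommGroup Y] [NormedSpace 𝕂 Y] (T : X →L[𝕂] Y) : Prop :=
  ∃ x₀ : X, ‖x₀‖ = 1 ∧ ∀ x : ℕ → X, (∀ n, ‖x n‖ ≤ 1) →
    Tendsto (fun n => ‖T (x n)‖) atTop (𝓝 ‖T‖) →
    ∃ σ : ℕ → ℕ, StrictMono σ ∧ ∃ c : 𝕂, ‖c‖ = 1 ∧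
      Tendsto (fun n => x (σ n)) atTop (𝓝 (c • x₀))

/-- The pair `(X, Y)` has the BPBp-ASE. -/
def BPBpASE (𝕂 X Y : Type*) [RCLike 𝕂] [NormedAddCommGroup X] [NormedSpace 𝕂 X]
    [NormedAddCommGroup Y] [NormedSpace 𝕂 Y] : Prop :=
  ∀ ε : ℝ, 0 < ε → ∃ η : ℝ, 0 < η ∧ η < ε ∧
    ∀ (T : X →L[𝕂] Y) (x : X), ‖T‖ = 1 → ‖x‖ = 1 → 1 - η < ‖T x‖ →
      ∃ (S : X →L[𝕂] Y) (x₀ : X), IsASE S ∧ ‖x₀‖ = 1 ∧ ‖S‖ = 1 ∧ ‖S x₀‖ = 1 ∧
        ‖S - T‖ < ε ∧ ‖x - x₀‖ < ε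

/-- Uniform convexity. -/
def IsUniformlyConvex (X : Type*) [NormedAddCommGroup X] : Prop :=
  ∀ ε : ℝ, 0 < ε → ∃ δ : ℝ, 0 < δ ∧ δ < 1 ∧
    ∀ x₁ x₂ : X, ‖x₁‖ = 1 → ‖x₂‖ = 1 → 1 - δ < ‖x₁ + x₂‖ / 2 → ‖x₁ - x₂‖ < ε

section

variable {𝕂 X Y : Type*} [RCLike 𝕂] [NormedAddCommGroup X] [NormedSpace 𝕂 X] [ProperSpace X]
    [NormedAddCommGroup Y] [NormedSpace 𝕂 Y]

lemma isASE_of_unique {T : X →L[𝕂] Y} {x₀ : X} (hx₀ : ‖x₀‖ = 1)
    (h : ∀ x : X, ‖x‖ ≤ 1 → ‖T x‖ = ‖T‖ → ∃ c : 𝕂, ‖c‖ = 1 ∧ x = c • x₀) : IsASE T := by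
  refine ⟨x₀, hx₀, fun x hx hlim => ?_⟩
  obtain ⟨u, hu, σ, hσ, hlimσ⟩ := (isCompact_closedBall (0:X) 1).tendsto_subseq
    (x := x) (fun n => by rw [mem_closedBall_zero_iff]; exact hx n)
  have h1 : Tendsto (fun n => ‖T (x (σ n))‖) atTop (𝓝 ‖T u‖) :=
    (continuous_norm.tendsto _).comp ((T.continuous.tendsto _).comp hlimσ)
  have h2 : Tendsto (fun n => ‖T (x (σ n))‖) atTop (𝓝 ‖T‖) := hlim.comp hσ.tendsto_atTop
  have h3 := tendsto_nhds_unique h1 h2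
  rw [mem_closedBall_zero_iff] at hu
  obtain ⟨c, hc, hcu⟩ := h u hu h3
  exact ⟨σ, hσ, c, hc, by rw [← hcu]; exact hlimσ⟩

/-- A contraction near the identity which is norm attaining only along one direction. -/
def GoodAt (𝕂 : Type*) {X : Type*} [RCLike 𝕂] [NormedAddCommGroup X] [NormedSpace 𝕂 X] (m : X) : Prop :=
  ∀ ε : ℝ, 0 < ε → ∃ (U : X →L[𝕂] X) (x₀ : X), ‖x₀‖ = 1 ∧ ‖U - ContinuousLinearMap.id 𝕂 X‖ ≤ ε ∧
    U x₀ = m ∧ (∀ x : X, ‖x‖ ≤ 1 → ‖U x‖ ≤ 1) ∧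
    (∀ x : X, ‖x‖ ≤ 1 → ‖U x‖ = 1 → ∃ c : 𝕂, ‖c‖ = 1 ∧ x = c • x₀)

omit [ProperSpace X] in
lemma opNorm_le_one {U : X →L[𝕂] Y} (hU : ∀ x : X, ‖x‖ ≤ 1 → ‖U x‖ ≤ 1) : ‖U‖ ≤ 1 := by
  let _ : NormedSpace ℝ X := NormedSpace.restrictScalars ℝ 𝕂 X
  exact ContinuousLinearMap.opNorm_le_of_unit_norm zero_le_one (fun x hx => hU x hx.le)

lemma exists_attain (T : X →L[𝕂] Y) [Nontrivial X] : ∃ x : X, ‖x‖ ≤ 1 ∧ ‖T x‖ = ‖T‖ := by
  obtain ⟨x, hx, hmax⟩ := (isCompact_closedBall (0:X) 1).exists_isMaxOn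
    ⟨0, by simp⟩ (f := fun x => ‖T x‖) (by fun_prop)
  rw [mem_closedBall_zero_iff] at hx
  refine ⟨x, hx, le_antisymm (T.unit_le_opNorm x hx) ?_⟩
  let _ : NormedSpace ℝ X := NormedSpace.restrictScalars ℝ 𝕂 X
  apply ContinuousLinearMap.opNorm_le_of_unit_norm (norm_nonneg _)
  intro y hy
  exact hmax (by rw [mem_closedBall_zero_iff]; exact hy.le)

/-- The abstract criterion. -/
theorem bpbpASE_of_good [Nontrivial X] (H : ∀ m : X, ‖m‖ = 1 → GoodAt 𝕂 m) : BPBpASE 𝕂 X Y := by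
  intro ε₀ hε₀
  set ε : ℝ := min (ε₀ / 8) (1 / 4) with hε
  have hεpos : 0 < ε := by positivity
  have hε8 : ε ≤ ε₀ / 8 := min_le_left _ _
  have hε4 : ε ≤ 1 / 4 := min_le_right _ _
  -- local data
  have hloc : ∀ m : X, ‖m‖ = 1 → ∃ δ : ℝ, 0 < δ ∧ δ ≤ ε / 2 ∧ ∃ (U : X →L[𝕂] X) (xm : X), ‖xm‖ = 1 ∧
      ‖U - ContinuousLinearMap.id 𝕂 X‖ ≤ ε ∧ U xm = m ∧ (∀ x : X, ‖x‖ ≤ 1 → ‖U x‖ ≤ 1) ∧
      ∀ x : X, ‖x‖ ≤ 1 → (∀ c : 𝕂, ‖c‖ = 1 → ε ≤ ‖x - c • xm‖) → ‖U x‖ ≤ 1 - 2 * δ := by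
    intro m hm
    obtain ⟨U, xm, h1, h2, h3, h4, h5⟩ := H m hm ε hεpos
    set C : Set X := {x : X | ‖x‖ ≤ 1 ∧ ∀ c : 𝕂, ‖c‖ = 1 → ε ≤ ‖x - c • xm‖} with hC
    have hCcl : IsClosed C := by
      have e : C = {x : X | ‖x‖ ≤ 1} ∩ ⋂ c : {c : 𝕂 // ‖c‖ = 1}, {x : X | ε ≤ ‖x - c.1 • xm‖} := by
        ext x
        simp only [hC, Set.mem_ofPred_eq, Set.mem_inter_iff, Set.mem_iInter, Subtype.forall]
      rw [e]
      apply IsClosed.inter (isClosed_le continuous_norm continuous_const)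
      apply isClosed_iInter
      intro c
      exact isClosed_le continuous_const (by fun_prop)
    have hCc : IsCompact C := (isCompact_closedBall (0:X) 1).of_isClosed_subset hCcl
      (fun x hx => by rw [mem_closedBall_zero_iff]; exact hx.1)
    rcases C.eq_empty_or_nonempty with hCe | hCn
    · refine ⟨ε / 2, by positivity, le_rfl, U, xm, h1, h2, h3, h4, fun x hx hx' => ?_⟩
      have : x ∈ C := ⟨hx, hx'⟩
      rw [hCe] at this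
      exact this.elim
    · obtain ⟨y, hyC, hmax⟩ := hCc.exists_isMaxOn hCn (f := fun x => ‖U x‖) (by fun_prop)
      have hy1 : ‖U y‖ < 1 := by
        apply lt_of_le_of_ne (h4 y hyC.1)
        intro hy
        obtain ⟨c, hc, hcy⟩ := h5 y hyC.1 hy
        have := hyC.2 c hc
        rw [← hcy, sub_self, norm_zero] at this
        linarith
      refine ⟨min (ε / 2) ((1 - ‖U y‖) / 2), lt_min (by positivity) (by linarith), min_le_left _ _,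
        U, xm, h1, h2, h3, h4, fun x hx hx' => ?_⟩
      have h6 : ‖U x‖ ≤ ‖U y‖ := hmax (show x ∈ C from ⟨hx, hx'⟩)
      have h7 : min (ε / 2) ((1 - ‖U y‖) / 2) ≤ (1 - ‖U y‖) / 2 := min_le_right _ _
      linarith
  choose! δ hδ0 hδε U xm hxm hU hUx hU1 hUC using hloc
  -- finite subcover of the sphere
  obtain ⟨t, ht, hcov⟩ := (isCompact_sphere (0:X) 1).elim_nhds_subcover (fun m => ball m (δ m))
    (fun m hm => ball_mem_nhds m (hδ0 m (by simpa using hm)))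
  have hsph : (sphere (0:X) 1).Nonempty := by
    obtain ⟨x, hx⟩ := exists_ne (0:X)
    refine ⟨((‖x‖⁻¹ : ℝ) : 𝕂) • x, ?_⟩
    rw [mem_sphere_zero_iff_norm, norm_smul]
    simp [norm_ne_zero_iff.2 hx]
  have htn : t.Nonempty := by
    obtain ⟨x, hx⟩ := hsph
    obtain ⟨m, hm, -⟩ := Set.mem_iUnion₂.1 (hcov hx)
    exact ⟨m, hm⟩
  obtain ⟨m₀, hm₀t, hm₀⟩ := t.exists_min_image δ htn
  have hm₀s : ‖m₀‖ = 1 := by simpa using ht m₀ hm₀t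
  refine ⟨δ m₀, hδ0 m₀ hm₀s, by have := hδε m₀ hm₀s; linarith, ?_⟩
  intro T x hT hx hTx
  obtain ⟨m, hmt, hxm'⟩ := Set.mem_iUnion₂.1 (hcov (show x ∈ sphere (0:X) 1 by simpa using hx))
  have hm : ‖m‖ = 1 := by simpa using ht m hmt
  rw [mem_ball, dist_eq_norm] at hxm'
  have hδm := hδε m hm
  have hTm : 1 - 2 * δ m < ‖T m‖ := by
    have e1 : ‖T x‖ ≤ ‖T m‖ + ‖T (x - m)‖ := by
      have := norm_add_le (T m) (T (x - m))
      rwa [← map_add, add_sub_cancel] at this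
    have e2 : ‖T (x - m)‖ ≤ ‖x - m‖ := by
      have := T.le_opNorm (x - m)
      rwa [hT, one_mul] at this
    have e3 := hm₀ m hmt
    linarith
  -- first modification
  set T₁ : X →L[𝕂] Y := T.comp (U m) with hT₁
  have hT₁x : ∀ y : X, ‖T₁ y‖ ≤ ‖U m y‖ := by
    intro y
    have := T.le_opNorm (U m y)
    rwa [hT, one_mul] at this
  obtain ⟨x₁, hx₁, hx₁T⟩ := exists_attain T₁
  have hT₁xm : ‖T₁ (xm m)‖ = ‖T m‖ := by
    rw [hT₁, ContinuousLinearMap.comp_apply, hUx m hm]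
  have hT₁n : ‖T m‖ ≤ ‖T₁‖ := by
    rw [← hT₁xm]; exact T₁.unit_le_opNorm _ (hxm m hm).le
  have hT₁pos : 0 < ‖T₁‖ := by linarith
  have hT₁le : ‖T₁‖ ≤ 1 := by
    rw [← hx₁T]
    exact (hT₁x x₁).trans (hU1 m hm x₁ hx₁)
  have hcex : ∃ c : 𝕂, ‖c‖ = 1 ∧ ‖x₁ - c • xm m‖ < ε := by
    by_contra hcon
    push Not at hcon
    have h1 := hUC m hm x₁ hx₁ hcon
    have h2 := hT₁x x₁
    rw [hx₁T] at h2
    linarith
  obtain ⟨c, hc, hcx⟩ := hcex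
  have hc0 : c ≠ 0 := by rw [← norm_pos_iff, hc]; exact one_pos
  have hcinv : ‖c⁻¹‖ = 1 := by rw [norm_inv, hc, inv_one]
  set y₁ : X := c⁻¹ • x₁ with hy₁
  have hy₁xm : ‖y₁ - xm m‖ < ε := by
    have e : y₁ - xm m = c⁻¹ • (x₁ - c • xm m) := by
      rw [smul_sub, smul_smul, inv_mul_cancel₀ hc0, one_smul]
    rw [e, norm_smul, hcinv, one_mul]
    exact hcx
  have hT₁y : ‖T₁ y₁‖ = ‖T₁‖ := by
    rw [hy₁, map_smul, norm_smul, hcinv, one_mul, hx₁T]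
  have hy₁n : ‖y₁‖ = 1 := by
    apply le_antisymm
    · rw [hy₁, norm_smul, hcinv, one_mul]; exact hx₁
    · have := T₁.le_opNorm y₁
      rw [hT₁y] at this
      by_contra hcon
      push Not at hcon
      nlinarith
  set a : 𝕂 := ((‖T₁‖⁻¹ : ℝ) : 𝕂) with ha
  have hna : ‖a‖ = ‖T₁‖⁻¹ := by
    rw [ha, RCLike.norm_ofReal, abs_of_pos (by positivity)]
  set T' : X →L[𝕂] Y := a • T₁ with hT'
  have hT'n : ‖T'‖ = 1 := by
    rw [hT', norm_smul, hna, inv_mul_cancel₀ hT₁pos.ne']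
  have hT'y : ‖T' y₁‖ = 1 := by
    rw [hT', _root_.smul_apply, norm_smul, hna, hT₁y, inv_mul_cancel₀ hT₁pos.ne']
  have hT'T₁ : ‖T' - T₁‖ ≤ 1 - ‖T₁‖ := by
    have e : T' - T₁ = (a - 1) • T₁ := by rw [hT', sub_smul, one_smul]
    have e2 : ‖a - 1‖ = ‖T₁‖⁻¹ - 1 := by
      have : a - 1 = ((‖T₁‖⁻¹ - 1 : ℝ) : 𝕂) := by rw [ha]; push_cast; ring
      rw [this, RCLike.norm_ofReal, abs_of_nonneg]
      have := (one_le_inv₀ hT₁pos).2 hT₁le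
      linarith
    rw [e, norm_smul, e2, sub_mul, inv_mul_cancel₀ hT₁pos.ne', one_mul]
  have hT₁T : ‖T₁ - T‖ ≤ ε := by
    have e : T₁ - T = T.comp (U m - ContinuousLinearMap.id 𝕂 X) := by
      ext y; simp [hT₁]
    rw [e]
    refine (T.opNorm_comp_le _).trans ?_
    rw [hT, one_mul]
    exact hU m hm
  have hT'T : ‖T' - T‖ ≤ 2 * ε := by
    have e : T' - T = (T' - T₁) + (T₁ - T) := by abel
    rw [e]
    refine (norm_add_le _ _).trans ?_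
    linarith
  -- second modification
  obtain ⟨U', x', hx', hU'I, hU'x', hU'1, hU'u⟩ := H y₁ hy₁n ε hεpos
  set S : X →L[𝕂] Y := T'.comp U' with hS
  have hSx : ∀ y : X, ‖S y‖ ≤ ‖U' y‖ := by
    intro y
    have := T'.le_opNorm (U' y)
    rwa [hT'n, one_mul] at this
  have hSx' : ‖S x'‖ = 1 := by
    rw [hS, ContinuousLinearMap.comp_apply, hU'x', hT'y]
  have hSn : ‖S‖ = 1 := by
    apply le_antisymm
    · exact opNorm_le_one (fun y hy => (hSx y).trans (hU'1 y hy))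
    · rw [← hSx']; exact S.unit_le_opNorm _ hx'.le
  have hST' : ‖S - T'‖ ≤ ε := by
    have e : S - T' = T'.comp (U' - ContinuousLinearMap.id 𝕂 X) := by
      ext y; simp [hS]
    rw [e]
    refine (T'.opNorm_comp_le _).trans ?_
    rw [hT'n, one_mul]
    exact hU'I
  refine ⟨S, x', ?_, hx', hSn, hSx', ?_, ?_⟩
  · apply isASE_of_unique hx'
    intro y hy hSy
    rw [hSn] at hSy
    apply hU'u y hy
    apply le_antisymm (hU'1 y hy)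
    rw [← hSy]; exact hSx y
  · have e : S - T = (S - T') + (T' - T) := by abel
    rw [e]
    refine (norm_add_le _ _).trans_lt ?_
    linarith
  · -- distances
    have d1 : ‖m - xm m‖ ≤ ε := by
      have e : m - xm m = (U m - ContinuousLinearMap.id 𝕂 X) (xm m) := by
        simp [hUx m hm]
      rw [e]
      have := (U m - ContinuousLinearMap.id 𝕂 X).le_opNorm (xm m)
      rw [hxm m hm, mul_one] at this
      exact this.trans (hU m hm)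
    have d2 : ‖y₁ - x'‖ ≤ ε := by
      have e : y₁ - x' = (U' - ContinuousLinearMap.id 𝕂 X) x' := by
        simp [hU'x']
      rw [e]
      have := (U' - ContinuousLinearMap.id 𝕂 X).le_opNorm x'
      rw [hx', mul_one] at this
      exact this.trans hU'I
    have e : x - x' = (x - m) + (m - xm m) + -(y₁ - xm m) + (y₁ - x') := by abel
    rw [e]
    refine (norm_add_le _ _).trans_lt ?_
    have n1 : ‖(x - m) + (m - xm m) + -(y₁ - xm m)‖ ≤ ‖x - m‖ + ‖m - xm m‖ + ‖y₁ - xm m‖ := by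
      refine (norm_add_le _ _).trans ?_
      rw [norm_neg]
      gcongr
      exact norm_add_le _ _
    linarith

end

end Pool.Agent.ASE
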