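import Mathlib
import Pool.Agent.ASE.Basic

set_option autoImplicit false

open Filter Topology Metric Set
open scoped InnerProductSpace

namespace Pool.Agent.ASE

/-- The underlying vector space `𝕂³`. -/
def Xsp (𝕂 : Type) : Type := 𝕂 × 𝕂 × 𝕂

variable {𝕂 : Type} [RCLike 𝕂]

instance : AddCommGroup (Xsp 𝕂) := inferInstanceAs (AddCommGroup (𝕂 × 𝕂 × 𝕂))
instance : Module 𝕂 (Xsp 𝕂) := inferInstanceAs (Module 𝕂 (𝕂 × 𝕂 × 𝕂))

/-- A vector. -/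
def mk3 (x y z : 𝕂) : Xsp 𝕂 := (x, y, z)

/-- First coordinate. -/
def cx (v : Xsp 𝕂) : 𝕂 := v.1
/-- Second coordinate. -/
def cy (v : Xsp 𝕂) : 𝕂 := v.2.1
/-- Third coordinate. -/
def cz (v : Xsp 𝕂) : 𝕂 := v.2.2

lemma Xsp.ext {v w : Xsp 𝕂} (h1 : cx v = cx w) (h2 : cy v = cy w) (h3 : cz v = cz w) : v = w :=
  Prod.ext h1 (Prod.ext h2 h3)

@[simp] lemma cx_add (v w : Xsp 𝕂) : cx (v + w) = cx v + cx w := rfl
@[simp] lemma cy_add (v w : Xsp 𝕂) : cy (v + w) = cy v + cy w := rfl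
@[simp] lemma cz_add (v w : Xsp 𝕂) : cz (v + w) = cz v + cz w := rfl
@[simp] lemma cx_sub (v w : Xsp 𝕂) : cx (v - w) = cx v - cx w := rfl
@[simp] lemma cy_sub (v w : Xsp 𝕂) : cy (v - w) = cy v - cy w := rfl
@[simp] lemma cz_sub (v w : Xsp 𝕂) : cz (v - w) = cz v - cz w := rfl
@[simp] lemma cx_smul (c : 𝕂) (w : Xsp 𝕂) : cx (c • w) = c * cx w := rfl
@[simp] lemma cy_smul (c : 𝕂) (w : Xsp 𝕂) : cy (c • w) = c * cy w := rfl
@[simp] lemma cz_smul (c : 𝕂) (w : Xsp 𝕂) : cz (c • w) = c * cz w := rfl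
@[simp] lemma cx_mk (x y z : 𝕂) : cx (mk3 x y z) = x := rfl
@[simp] lemma cy_mk (x y z : 𝕂) : cy (mk3 x y z) = y := rfl
@[simp] lemma cz_mk (x y z : 𝕂) : cz (mk3 x y z) = z := rfl

/-- The quadratic forms. -/
noncomputable def q (s : ℝ) (v : Xsp 𝕂) : ℝ :=
  (1 - s ^ 2 / 2) * ‖cx v‖ ^ 2 + (1 + s) * ‖cy v‖ ^ 2 + 2 * s ^ 2 * ‖cz v‖ ^ 2

/-- The vector whose Euclidean norm squared is `q s v`. -/
noncomputable def avec (s : ℝ) (v : Xsp 𝕂) : EuclideanSpace 𝕂 (Fin 3) :=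
  WithLp.toLp 2 ![((Real.sqrt (1 - s ^ 2 / 2) : ℝ) : 𝕂) * cx v, ((Real.sqrt (1 + s) : ℝ) : 𝕂) * cy v,
    ((Real.sqrt 2 * s : ℝ) : 𝕂) * cz v]

lemma avec_norm_sq {s : ℝ} (hs : s ∈ Icc (0:ℝ) 1) (v : Xsp 𝕂) : ‖avec s v‖ ^ 2 = q s v := by
  obtain ⟨h0, h1⟩ := hs
  have e1 : 0 ≤ 1 - s ^ 2 / 2 := by nlinarith
  have e2 : 0 ≤ 1 + s := by linarith
  rw [EuclideanSpace.norm_sq_eq, Fin.sum_univ_three]
  simp only [avec, Matrix.cons_val_zero, Matrix.cons_val_one, Matrix.cons_val, norm_mul,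
    RCLike.norm_ofReal, mul_pow, sq_abs, Real.sq_sqrt e1, Real.sq_sqrt e2]
  rw [Real.sq_sqrt (by norm_num), q]

lemma continuous_avec (v : Xsp 𝕂) : Continuous (fun s : ℝ => avec s v) := by
  unfold avec
  apply (PiLp.continuous_toLp 2 _).comp
  apply continuous_pi
  intro i
  fin_cases i
  · simp only [Fin.zero_eta, Fin.isValue, Matrix.cons_val_zero]
    exact (RCLike.continuous_ofReal.comp (by fun_prop)).mul continuous_const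
  · simp only [Fin.mk_one, Fin.isValue, Matrix.cons_val_one]
    exact (RCLike.continuous_ofReal.comp (by fun_prop)).mul continuous_const
  · simp only [Fin.reduceFinMk, Matrix.cons_val]
    exact (RCLike.continuous_ofReal.comp (by fun_prop)).mul continuous_const

lemma avec_add (s : ℝ) (v w : Xsp 𝕂) : avec s (v + w) = avec s v + avec s w := by
  ext i
  fin_cases i <;> simp [avec, mul_add]

lemma avec_smul (s : ℝ) (c : 𝕂) (v : Xsp 𝕂) : avec s (c • v) = c • avec s v := by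
  ext i
  fin_cases i <;> simp [avec] <;> ring

/-- The embedding into a space of continuous functions. -/
noncomputable def Phi : Xsp 𝕂 →ₗ[𝕂] C(Icc (0:ℝ) 1, EuclideanSpace 𝕂 (Fin 3)) where
  toFun v := ⟨fun s => avec s.1 v, (continuous_avec v).comp continuous_subtype_val⟩
  map_add' v w := by
    ext1 s
    exact avec_add _ _ _
  map_smul' c v := by
    ext1 s
    exact avec_smul _ _ _

lemma Phi_apply (v : Xsp 𝕂) (s : Icc (0:ℝ) 1) : Phi v s = avec s.1 v := rfl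

lemma eq_zero_of_q {s : ℝ} (hs0 : 0 < s) (hs : s ≤ 1) {v : Xsp 𝕂} (h : q s v = 0) : v = 0 := by
  have e1 : 0 < 1 - s ^ 2 / 2 := by nlinarith
  have e2 : 0 < 1 + s := by linarith
  have e3 : 0 < 2 * s ^ 2 := by positivity
  rw [q] at h
  have t1 : 0 ≤ (1 - s ^ 2 / 2) * ‖cx v‖ ^ 2 := by positivity
  have t2 : 0 ≤ (1 + s) * ‖cy v‖ ^ 2 := by positivity
  have t3 : 0 ≤ 2 * s ^ 2 * ‖cz v‖ ^ 2 := by positivity
  have z1 : (1 - s ^ 2 / 2) * ‖cx v‖ ^ 2 = 0 := by linarith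
  have z2 : (1 + s) * ‖cy v‖ ^ 2 = 0 := by linarith
  have z3 : 2 * s ^ 2 * ‖cz v‖ ^ 2 = 0 := by linarith
  have w1 : cx v = 0 := by
    rcases mul_eq_zero.1 z1 with h | h
    · linarith
    · simpa using h
  have w2 : cy v = 0 := by
    rcases mul_eq_zero.1 z2 with h | h
    · linarith
    · simpa using h
  have w3 : cz v = 0 := by
    rcases mul_eq_zero.1 z3 with h | h
    · linarith
    · simpa using h
  exact Xsp.ext w1 w2 w3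

lemma Phi_injective : Function.Injective (Phi : Xsp 𝕂 →ₗ[𝕂] _) := by
  rw [injective_iff_map_eq_zero]
  intro v hv
  apply eq_zero_of_q one_pos le_rfl
  rw [← avec_norm_sq ⟨zero_le_one, le_rfl⟩]
  have := congrArg (fun f => f (⟨1, ⟨zero_le_one, le_rfl⟩⟩ : Icc (0:ℝ) 1)) hv
  rw [Phi_apply] at this
  simp only at this
  rw [this]
  simp

noncomputable instance : NormedAddCommGroup (Xsp 𝕂) :=
  NormedAddCommGroup.induced (Xsp 𝕂) C(Icc (0:ℝ) 1, EuclideanSpace 𝕂 (Fin 3)) (Phi (𝕂 := 𝕂)) Phi_injective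

noncomputable instance : NormedSpace 𝕂 (Xsp 𝕂) :=
  NormedSpace.induced 𝕂 (Xsp 𝕂) C(Icc (0:ℝ) 1, EuclideanSpace 𝕂 (Fin 3)) (Phi (𝕂 := 𝕂))

instance : Module.Finite 𝕂 (Xsp 𝕂) := inferInstanceAs (Module.Finite 𝕂 (𝕂 × 𝕂 × 𝕂))

instance : ProperSpace (Xsp 𝕂) := FiniteDimensional.proper_rclike 𝕂 (Xsp 𝕂)

instance : Nontrivial (Xsp 𝕂) := inferInstanceAs (Nontrivial (𝕂 × 𝕂 × 𝕂))

lemma norm_def (v : Xsp 𝕂) : ‖v‖ = ‖Phi v‖ := rfl

lemma q_le {s : ℝ} (hs : s ∈ Icc (0:ℝ) 1) (v : Xsp 𝕂) : q s v ≤ ‖v‖ ^ 2 := by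
  rw [← avec_norm_sq hs, norm_def]
  have := (Phi v).norm_coe_le_norm ⟨s, hs⟩
  rw [Phi_apply] at this
  gcongr

lemma q_nonneg {s : ℝ} (hs : s ∈ Icc (0:ℝ) 1) (v : Xsp 𝕂) : 0 ≤ q s v := by
  rw [← avec_norm_sq hs]; positivity

lemma norm_le_of_q {v : Xsp 𝕂} {C : ℝ} (hC : 0 ≤ C) (h : ∀ s ∈ Icc (0:ℝ) 1, q s v ≤ C ^ 2) :
    ‖v‖ ≤ C := by
  rw [norm_def, ContinuousMap.norm_le _ hC]
  intro s
  rw [Phi_apply]
  have := h s.1 s.2
  rw [← avec_norm_sq s.2] at this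
  exact abs_le_of_sq_le_sq' this hC |>.2

lemma exists_q_eq (v : Xsp 𝕂) : ∃ s ∈ Icc (0:ℝ) 1, q s v = ‖v‖ ^ 2 := by
  have hne : (Icc (0:ℝ) 1).Nonempty := ⟨0, by simp⟩
  obtain ⟨s, hs, hmax⟩ := isCompact_Icc.exists_isMaxOn hne (f := fun s => q s v) (by
    unfold q; fun_prop)
  refine ⟨s, hs, le_antisymm (q_le hs v) ?_⟩
  have h1 : ‖v‖ ≤ Real.sqrt (q s v) := by
    apply norm_le_of_q (Real.sqrt_nonneg _)
    intro r hr
    rw [Real.sq_sqrt (q_nonneg hs v)]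
    exact hmax hr
  calc ‖v‖ ^ 2 ≤ (Real.sqrt (q s v)) ^ 2 := by gcongr
    _ = q s v := Real.sq_sqrt (q_nonneg hs v)

/-- The space is not uniformly convex. -/
lemma not_uniformlyConvex : ¬ IsUniformlyConvex (Xsp 𝕂) := by
  intro h
  obtain ⟨δ, hδ, -, H⟩ := h 1 one_pos
  have hn : ∀ z : 𝕂, ‖z‖ ≤ 1 / 2 → ‖(mk3 1 0 z : Xsp 𝕂)‖ = 1 := by
    intro z hz
    apply le_antisymm
    · apply norm_le_of_q zero_le_one
      intro s hs
      have h0 := norm_nonneg z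
      have h1 : ‖z‖ ^ 2 ≤ 1 / 4 := by nlinarith
      have h2 : 2 * s ^ 2 * ‖z‖ ^ 2 ≤ 2 * s ^ 2 * (1 / 4) := by gcongr
      simp only [q, cx_mk, cy_mk, cz_mk, norm_one, norm_zero]
      nlinarith
    · have := q_le (s := 0) (by simp) (mk3 1 0 z : Xsp 𝕂)
      simp [q] at this
      nlinarith [norm_nonneg (mk3 1 0 z : Xsp 𝕂)]
  have h2 : ‖(2:𝕂)⁻¹‖ = 1 / 2 := by rw [norm_inv]; simp
  have e1 := hn (2:𝕂)⁻¹ h2.le
  have e2 := hn (-(2:𝕂)⁻¹) (by rw [norm_neg]; exact h2.le)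
  have e3 := hn 0 (by simp)
  have e4 : (mk3 1 0 (2:𝕂)⁻¹ : Xsp 𝕂) + mk3 1 0 (-(2:𝕂)⁻¹) = (2:𝕂) • mk3 1 0 0 := by
    apply Xsp.ext <;> simp
    norm_num
  have e5 : (mk3 1 0 (2:𝕂)⁻¹ : Xsp 𝕂) - mk3 1 0 (-(2:𝕂)⁻¹) = mk3 0 0 1 := by
    apply Xsp.ext <;> simp
    norm_num
  have H1 := H _ _ e1 e2 (by rw [e4, norm_smul, e3]; simp; linarith)
  rw [e5] at H1
  have h3 := q_le (s := 1) (by simp) (mk3 0 0 1 : Xsp 𝕂)
  simp [q] at h3
  nlinarith [norm_nonneg (mk3 0 0 1 : Xsp 𝕂)]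

end Pool.Agent.ASE
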