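import Mathlib
import Pool.Agent.ASE.Space

set_option autoImplicit false

open Filter Topology Metric Set
open scoped InnerProductSpace ComplexConjugate

namespace Pool.Agent.ASE

variable {𝕂 : Type} [RCLike 𝕂]

lemma GoodAt.smul {m : Xsp 𝕂} (h : GoodAt 𝕂 m) {c : 𝕂} (hc : ‖c‖ = 1) : GoodAt 𝕂 (c • m) := by
  intro ε hε
  obtain ⟨U, x₀, h1, h2, h3, h4, h5⟩ := h ε hε
  have hc0 : c ≠ 0 := by rw [← norm_pos_iff, hc]; exact one_pos
  refine ⟨U, c • x₀, by rw [norm_smul, hc, h1, one_mul], h2, by rw [map_smul, h3], h4, ?_⟩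
  intro x hx hUx
  obtain ⟨d, hd, hdx⟩ := h5 x hx hUx
  refine ⟨d * c⁻¹, by rw [norm_mul, norm_inv, hd, hc]; norm_num, ?_⟩
  rw [smul_smul, mul_assoc, inv_mul_cancel₀ hc0, mul_one]
  exact hdx

/-- The functional given by the form `q s` and the vector `m`. -/
noncomputable def phi (s : ℝ) (m : Xsp 𝕂) : Xsp 𝕂 →ₗ[𝕂] 𝕂 where
  toFun v := ⟪avec s m, avec s v⟫_𝕂
  map_add' v w := by rw [avec_add, inner_add_right]
  map_smul' c v := by rw [avec_smul, inner_smul_right]; rfl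

lemma norm_avec_le {s : ℝ} (hs : s ∈ Icc (0:ℝ) 1) (v : Xsp 𝕂) : ‖avec s v‖ ≤ ‖v‖ := by
  have h1 := avec_norm_sq hs v
  have h2 := q_le hs v
  rw [← h1] at h2
  exact abs_le_of_sq_le_sq' h2 (norm_nonneg _) |>.2

lemma good_exposed {m : Xsp 𝕂} (hm : ‖m‖ = 1) {s : ℝ} (hs0 : 0 < s) (hs1 : s ≤ 1) (hq : q s m = 1) :
    GoodAt 𝕂 m := by
  intro ε hε
  have hs : s ∈ Icc (0:ℝ) 1 := ⟨hs0.le, hs1⟩
  have ha : ‖avec s m‖ = 1 := by
    have h1 := avec_norm_sq hs m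
    rw [hq] at h1
    nlinarith [norm_nonneg (avec s m)]
  have hphib : ∀ v, ‖phi s m v‖ ≤ 1 * ‖v‖ := by
    intro v
    have h1 : ‖phi s m v‖ ≤ ‖avec s m‖ * ‖avec s v‖ := norm_inner_le_norm (𝕜 := 𝕂) (avec s m) (avec s v)
    rw [ha] at h1
    have := norm_avec_le hs v
    linarith
  set φ : Xsp 𝕂 →L[𝕂] 𝕂 := (phi s m).mkContinuous 1 hphib with hφ
  have hφa : ∀ v, φ v = phi s m v := fun v => rfl
  have hφb : ∀ v, ‖φ v‖ ≤ ‖v‖ := fun v => by
    have := hphib v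
    rwa [one_mul] at this
  have hφm : φ m = 1 := by
    rw [hφa]
    show ⟪avec s m, avec s m⟫_𝕂 = 1
    rw [inner_self_eq_norm_sq_to_K, ha]; simp
  set δ : ℝ := min (ε / 2) (1 / 2) with hδ
  have hδ0 : 0 < δ := by positivity
  have hδε : δ ≤ ε / 2 := min_le_left _ _
  have hδ2 : δ ≤ 1 / 2 := min_le_right _ _
  set P : Xsp 𝕂 →L[𝕂] Xsp 𝕂 := φ.smulRight m with hP
  have hPa : ∀ v, P v = φ v • m := fun v => rfl
  set U : Xsp 𝕂 →L[𝕂] Xsp 𝕂 := ((1 - δ : ℝ) : 𝕂) • ContinuousLinearMap.id 𝕂 (Xsp 𝕂) + ((δ : ℝ) : 𝕂) • P with hU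
  have hUa : ∀ v, U v = ((1 - δ : ℝ) : 𝕂) • v + ((δ : ℝ) : 𝕂) • (φ v • m) := by
    intro v
    simp [hU, hPa]
  have hn1 : ‖((1 - δ : ℝ) : 𝕂)‖ = 1 - δ := by
    rw [RCLike.norm_ofReal, abs_of_nonneg (by linarith)]
  have hn2 : ‖((δ : ℝ) : 𝕂)‖ = δ := by
    rw [RCLike.norm_ofReal, abs_of_nonneg hδ0.le]
  have hUb : ∀ v, ‖U v‖ ≤ (1 - δ) * ‖v‖ + δ * ‖φ v‖ := by
    intro v
    rw [hUa]
    refine (norm_add_le _ _).trans ?_
    rw [norm_smul, norm_smul, norm_smul, hn1, hn2, hm, mul_one]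
  refine ⟨U, m, hm, ?_, ?_, ?_, ?_⟩
  · apply ContinuousLinearMap.opNorm_le_bound _ hε.le
    intro v
    have e : (U - ContinuousLinearMap.id 𝕂 (Xsp 𝕂)) v = ((δ : ℝ) : 𝕂) • (φ v • m - v) := by
      show U v - v = _
      rw [hUa]
      push_cast
      module
    rw [e, norm_smul, hn2]
    have h1 : ‖φ v • m - v‖ ≤ 2 * ‖v‖ := by
      refine (norm_sub_le _ _).trans ?_
      rw [norm_smul, hm, mul_one]
      have := hφb v
      linarith
    calc δ * ‖φ v • m - v‖ ≤ (ε / 2) * (2 * ‖v‖) := by gcongr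
      _ = ε * ‖v‖ := by ring
  · rw [hUa, hφm, one_smul]
    push_cast
    module
  · intro x hx
    have h1 := hUb x
    have h2 := hφb x
    nlinarith
  · intro x hx hUx
    have h1 := hUb x
    have h2 := hφb x
    rw [hUx] at h1
    have h3 : ‖φ x‖ = 1 := by
      apply le_antisymm (h2.trans hx)
      by_contra hcon
      push Not at hcon
      nlinarith
    refine ⟨φ x, h3, ?_⟩
    -- equality in Cauchy-Schwarz
    have h4 : q s (x - φ x • m) = 0 := by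
      rw [← avec_norm_sq hs]
      have e1 : avec s (x - φ x • m) = avec s x - φ x • avec s m := by
        have e2 : x - φ x • m = x + (-φ x) • m := by module
        rw [e2, avec_add, avec_smul]
        module
      rw [e1]
      have h5 : ‖avec s x‖ ≤ 1 := (norm_avec_le hs x).trans hx
      have h6 : ‖avec s x - φ x • avec s m‖ ^ 2 = ‖avec s x‖ ^ 2 - ‖φ x‖ ^ 2 := by
        rw [@norm_sub_sq 𝕂]
        have e3 : ⟪avec s x, φ x • avec s m⟫_𝕂 = ((‖φ x‖ ^ 2 : ℝ) : 𝕂) := by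
          rw [inner_smul_right]
          have e4 : ⟪avec s x, avec s m⟫_𝕂 = conj (φ x) := by
            rw [hφa]
            show _ = conj (⟪avec s m, avec s x⟫_𝕂)
            rw [inner_conj_symm]
          rw [e4, RCLike.mul_conj]
          push_cast; ring
        rw [e3, RCLike.ofReal_re, norm_smul, ha]
        ring
      have h7 : ‖avec s x - φ x • avec s m‖ ^ 2 ≤ 0 := by
        rw [h6, h3]
        nlinarith [norm_nonneg (avec s x)]
      exact le_antisymm h7 (by positivity)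
    have h8 := eq_zero_of_q hs0 hs1 h4
    exact sub_eq_zero.1 h8

end Pool.Agent.ASE
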