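import Mathlib
import Pool.Agent.ASE.Exposed

set_option autoImplicit false

open Filter Topology Metric Set
open scoped InnerProductSpace ComplexConjugate

namespace Pool.Agent.ASE

variable {𝕂 : Type} [RCLike 𝕂]

/-- Lagrange identity. -/
lemma lagrange (A B G η : ℝ) (x y z z₀ : 𝕂) :
    (A * ‖x‖ ^ 2 + B * ‖y‖ ^ 2 + G * ‖z‖ ^ 2) * (A + B * η ^ 2 + G * ‖z₀‖ ^ 2)
      = ‖(A:𝕂) * x + (B:𝕂) * (η:𝕂) * y + (G:𝕂) * conj z₀ * z‖ ^ 2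
        + A * B * ‖y - (η:𝕂) * x‖ ^ 2 + A * G * ‖z - z₀ * x‖ ^ 2 + B * G * ‖(η:𝕂) * z - z₀ * y‖ ^ 2 := by
  simp only [← RCLike.normSq_eq_def', RCLike.normSq_apply, map_add, map_sub, RCLike.mul_re,
    RCLike.mul_im, RCLike.conj_re, RCLike.conj_im, RCLike.ofReal_re, RCLike.ofReal_im]
  ring

lemma continuous_cx : Continuous (cx : Xsp 𝕂 → 𝕂) :=
  LinearMap.continuous_of_finiteDimensional
    ({ toFun := cx, map_add' := fun _ _ => rfl, map_smul' := fun _ _ => rfl } : Xsp 𝕂 →ₗ[𝕂] 𝕂)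

lemma continuous_cy : Continuous (cy : Xsp 𝕂 → 𝕂) :=
  LinearMap.continuous_of_finiteDimensional
    ({ toFun := cy, map_add' := fun _ _ => rfl, map_smul' := fun _ _ => rfl } : Xsp 𝕂 →ₗ[𝕂] 𝕂)

lemma continuous_cz : Continuous (cz : Xsp 𝕂 → 𝕂) :=
  LinearMap.continuous_of_finiteDimensional
    ({ toFun := cz, map_add' := fun _ _ => rfl, map_smul' := fun _ _ => rfl } : Xsp 𝕂 →ₗ[𝕂] 𝕂)

section

variable (z₀ : 𝕂) (w₀ κ : ℝ)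

/-- the parameter `t` -/
noncomputable def tt (η : ℝ) : ℝ := η ^ 2 / (2 * w₀)
/-- the square of the norm of `v₀` -/
noncomputable def nn (η : ℝ) : ℝ :=
  (1 - tt w₀ η ^ 2 / 2) + (1 + tt w₀ η) * η ^ 2 + 2 * tt w₀ η ^ 2 * ‖z₀‖ ^ 2
/-- the functional `f` -/
noncomputable def Ff (η : ℝ) (v : Xsp 𝕂) : 𝕂 :=
  (((Real.sqrt (nn z₀ w₀ η))⁻¹ : ℝ) : 𝕂) *
    ((((1 - tt w₀ η ^ 2 / 2 : ℝ)) : 𝕂) * cx v + (((1 + tt w₀ η : ℝ)) : 𝕂) * (η : 𝕂) * cy v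
      + ((2 * tt w₀ η ^ 2 : ℝ) : 𝕂) * conj z₀ * cz v)
/-- the vector `v₀` -/
noncomputable def vv (η : ℝ) : Xsp 𝕂 := mk3 1 0 z₀ + (η : 𝕂) • mk3 0 1 0
/-- the operator -/
noncomputable def UU (η : ℝ) (v : Xsp 𝕂) : Xsp 𝕂 :=
  Ff z₀ w₀ η v • mk3 1 0 z₀ + (κ : 𝕂) • (v - cx v • vv z₀ η)

lemma cx_vv (η : ℝ) : cx (vv z₀ η) = 1 := by simp [vv]
lemma cy_vv (η : ℝ) : cy (vv z₀ η) = (η : 𝕂) := by simp [vv]
lemma cz_vv (η : ℝ) : cz (vv z₀ η) = z₀ := by simp [vv]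

lemma cx_UU (η : ℝ) (v : Xsp 𝕂) : cx (UU z₀ w₀ κ η v) = Ff z₀ w₀ η v := by
  simp [UU, cx_vv]

lemma cy_UU (η : ℝ) (v : Xsp 𝕂) : cy (UU z₀ w₀ κ η v) = (κ : 𝕂) * (cy v - (η : 𝕂) * cx v) := by
  simp only [UU, cy_add, cy_smul, cy_sub, cy_mk, cy_vv]; ring

lemma cz_UU (η : ℝ) (v : Xsp 𝕂) : cz (UU z₀ w₀ κ η v)
    = Ff z₀ w₀ η v * z₀ + (κ : 𝕂) * (cz v - z₀ * cx v) := by
  simp only [UU, cz_add, cz_smul, cz_sub, cz_mk, cz_vv]; ring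

lemma continuous_tt : Continuous (tt w₀) := by unfold tt; fun_prop

lemma continuous_nn : Continuous (nn z₀ w₀) := by
  have := continuous_tt w₀
  unfold nn
  fun_prop

lemma tt_zero : tt w₀ 0 = 0 := by simp [tt]
lemma nn_zero : nn z₀ w₀ 0 = 1 := by simp [nn, tt_zero]
lemma Ff_zero (v : Xsp 𝕂) : Ff z₀ w₀ 0 v = cx v := by simp [Ff, nn_zero, tt_zero]
lemma vv_zero : vv z₀ 0 = mk3 1 0 z₀ := by simp [vv]

lemma continuousAt_Ff (s : ℝ) (v : Xsp 𝕂) :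
    ContinuousAt (fun p : ℝ × ℝ × Xsp 𝕂 => Ff z₀ w₀ p.1 p.2.2) (0, (s, v)) := by
  have ht := continuous_tt w₀
  have hn := continuous_nn z₀ w₀
  have hx := continuous_cx (𝕂 := 𝕂)
  have hy := continuous_cy (𝕂 := 𝕂)
  have hz := continuous_cz (𝕂 := 𝕂)
  have hr := RCLike.continuous_ofReal (K := 𝕂)
  unfold Ff
  apply ContinuousAt.mul
  · apply hr.continuousAt.comp
    apply ContinuousAt.inv₀
    · exact (Real.continuous_sqrt.comp (hn.comp continuous_fst)).continuousAt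
    · simp [nn_zero]
  · apply Continuous.continuousAt
    fun_prop

lemma continuousAt_UU (s : ℝ) (v : Xsp 𝕂) :
    ContinuousAt (fun p : ℝ × ℝ × Xsp 𝕂 => UU z₀ w₀ κ p.1 p.2.2) (0, (s, v)) := by
  have hx := continuous_cx (𝕂 := 𝕂)
  have hr := RCLike.continuous_ofReal (K := 𝕂)
  unfold UU
  apply ContinuousAt.add
  · exact (continuousAt_Ff z₀ w₀ s v).smul continuousAt_const
  · apply Continuous.continuousAt
    unfold vv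
    fun_prop

/-- The operator is linear. -/
noncomputable def UUlin (η : ℝ) : Xsp 𝕂 →ₗ[𝕂] Xsp 𝕂 where
  toFun v := UU z₀ w₀ κ η v
  map_add' v w := by
    apply Xsp.ext
    · rw [cx_add, cx_UU, cx_UU, cx_UU]; simp only [Ff, cx_add, cy_add, cz_add]; ring
    · rw [cy_add, cy_UU, cy_UU, cy_UU]; simp only [cx_add, cy_add]; ring
    · rw [cz_add, cz_UU, cz_UU, cz_UU]; simp only [Ff, cx_add, cy_add, cz_add]; ring
  map_smul' c v := by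
    simp only [RingHom.id_apply]
    apply Xsp.ext
    · rw [cx_smul, cx_UU, cx_UU]; simp only [Ff, cx_smul, cy_smul, cz_smul]; ring
    · rw [cy_smul, cy_UU, cy_UU]; simp only [cx_smul, cy_smul]; ring
    · rw [cz_smul, cz_UU, cz_UU]; simp only [Ff, cx_smul, cy_smul, cz_smul]; ring

end

/-- Behaviour of the limiting operator. -/
lemma limit_operator {z₀ : 𝕂} (hz₀ : ‖z₀‖ < 1 / 2) {w₀ κ : ℝ} (hw₀ : w₀ = 1 / 2 - 2 * ‖z₀‖ ^ 2)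
    (hκ0 : 0 < κ) (hκ1 : κ < 1) {s : ℝ} (hs : s ∈ Icc (0:ℝ) 1) {v : Xsp 𝕂} (hv : ‖v‖ ≤ 1)
    (h : 1 ≤ q s (UU z₀ w₀ κ 0 v)) : ‖cx v‖ = 1 ∧ cy v = 0 ∧ ‖cz v‖ ≤ 1 / 2 := by
  have hv2 : ‖v‖ ^ 2 ≤ 1 := by have := norm_nonneg v; nlinarith
  have hqs := (q_le hs v).trans hv2
  have hq0 := (q_le (s := 0) (by simp) v).trans hv2
  have hq1 := (q_le (s := 1) (by simp) v).trans hv2
  have hz2 : ‖z₀‖ ^ 2 < 1 / 4 := by have := norm_nonneg z₀; nlinarith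
  have hw0 : 0 < w₀ := by rw [hw₀]; linarith
  obtain ⟨hs0, hs1⟩ := hs
  -- the key convexity inequality for the third coordinate
  have hc : ‖Ff z₀ w₀ 0 v * z₀ + (κ : 𝕂) * (cz v - z₀ * cx v)‖ ^ 2
      ≤ (1 - κ) * (‖z₀‖ ^ 2 * ‖cx v‖ ^ 2) + κ * ‖cz v‖ ^ 2 := by
    rw [Ff_zero]
    have e : cx v * z₀ + (κ : 𝕂) * (cz v - z₀ * cx v) = ((1 - κ : ℝ) : 𝕂) * (z₀ * cx v) + (κ : 𝕂) * cz v := by
      push_cast; ring
    rw [e]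
    have h1 : ‖((1 - κ : ℝ) : 𝕂) * (z₀ * cx v) + (κ : 𝕂) * cz v‖
        ≤ (1 - κ) * ‖z₀ * cx v‖ + κ * ‖cz v‖ := by
      refine (norm_add_le _ _).trans ?_
      rw [norm_mul, norm_mul (κ : 𝕂), RCLike.norm_ofReal, RCLike.norm_ofReal, abs_of_pos hκ0,
        abs_of_pos (by linarith : (0:ℝ) < 1 - κ)]
    have h2 : ‖z₀ * cx v‖ ^ 2 = ‖z₀‖ ^ 2 * ‖cx v‖ ^ 2 := by rw [norm_mul, mul_pow]
    rw [← h2]
    have n1 := norm_nonneg (z₀ * cx v)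
    have n2 := norm_nonneg (cz v)
    have n0 := norm_nonneg (((1 - κ : ℝ) : 𝕂) * (z₀ * cx v) + (κ : 𝕂) * cz v)
    calc ‖((1 - κ : ℝ) : 𝕂) * (z₀ * cx v) + (κ : 𝕂) * cz v‖ ^ 2
        ≤ ((1 - κ) * ‖z₀ * cx v‖ + κ * ‖cz v‖) ^ 2 := by gcongr
      _ ≤ _ := by nlinarith [sq_nonneg (‖z₀ * cx v‖ - ‖cz v‖), mul_pos hκ0 (by linarith : (0:ℝ) < 1 - κ)]
  have hy : ‖(κ : 𝕂) * (cy v - ((0:ℝ) : 𝕂) * cx v)‖ ^ 2 = κ ^ 2 * ‖cy v‖ ^ 2 := by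
    rw [norm_mul, mul_pow, RCLike.norm_ofReal, abs_of_pos hκ0]
    simp
  have hmain : q s (UU z₀ w₀ κ 0 v) ≤ κ * q s v + (1 - κ) * ((1 - s ^ 2 * w₀) * ‖cx v‖ ^ 2)
      - κ * (1 - κ) * ((1 + s) * ‖cy v‖ ^ 2) := by
    rw [q, cx_UU, cy_UU, cz_UU, hy, Ff_zero]
    rw [Ff_zero] at hc
    have h1 : 2 * s ^ 2 * ‖cx v * z₀ + (κ : 𝕂) * (cz v - z₀ * cx v)‖ ^ 2
      ≤ 2 * s ^ 2 * ((1 - κ) * (‖z₀‖ ^ 2 * ‖cx v‖ ^ 2) + κ * ‖cz v‖ ^ 2) := by gcongr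
    rw [q, hw₀]
    nlinarith
  have nx := sq_nonneg ‖cx v‖
  have ny := sq_nonneg ‖cy v‖
  have hx1 : ‖cx v‖ ^ 2 ≤ 1 := by simp [q] at hq0; linarith
  have hsw : 0 ≤ s ^ 2 * w₀ := by positivity
  have t1 : (1 - s ^ 2 * w₀) * ‖cx v‖ ^ 2 ≤ ‖cx v‖ ^ 2 := by nlinarith
  have hκκ : 0 < κ * (1 - κ) := mul_pos hκ0 (by linarith)
  have t2 : 0 ≤ κ * (1 - κ) * ((1 + s) * ‖cy v‖ ^ 2) := by positivity
  have t3 : κ * q s v ≤ κ := by nlinarith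
  have t4 : (1 - κ) * ((1 - s ^ 2 * w₀) * ‖cx v‖ ^ 2) ≤ (1 - κ) * ‖cx v‖ ^ 2 := by
    apply mul_le_mul_of_nonneg_left t1; linarith
  have hx : ‖cx v‖ ^ 2 = 1 := by
    by_contra hne
    have hlt : ‖cx v‖ ^ 2 < 1 := lt_of_le_of_ne hx1 hne
    have : (1 - κ) * ‖cx v‖ ^ 2 < (1 - κ) * 1 := by
      apply mul_lt_mul_of_pos_left hlt; linarith
    linarith
  have hxn : ‖cx v‖ = 1 := by
    have := norm_nonneg (cx v)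
    nlinarith
  have hyn : ‖cy v‖ ^ 2 = 0 := by
    simp [q] at hq0
    rw [hx] at hq0
    linarith
  refine ⟨hxn, by simpa using hyn, ?_⟩
  simp [q] at hq1
  rw [hx, hyn] at hq1
  have := norm_nonneg (cz v)
  nlinarith

end Pool.Agent.ASE
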