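import Mathlib
import Pool.Agent.ASE.Face

set_option autoImplicit false

open Filter Topology Metric Set
open scoped InnerProductSpace ComplexConjugate

namespace Pool.Agent.ASE

variable {𝕂 : Type} [RCLike 𝕂]

/-- The local quantity `D`. -/
noncomputable def DD (z₀ : 𝕂) (w₀ κ η : ℝ) (v : Xsp 𝕂) : ℝ :=
  ‖Ff z₀ w₀ η v‖ ^ 2 / 2 - 2 * ‖cz (UU z₀ w₀ κ η v)‖ ^ 2

lemma q_UU (z₀ : 𝕂) (w₀ κ η s : ℝ) (v : Xsp 𝕂) :
    q s (UU z₀ w₀ κ η v) = ‖Ff z₀ w₀ η v‖ ^ 2 + κ ^ 2 * ‖cy v - (η : 𝕂) * cx v‖ ^ 2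
      + s * (κ ^ 2 * ‖cy v - (η : 𝕂) * cx v‖ ^ 2) - s ^ 2 * DD z₀ w₀ κ η v := by
  rw [DD, q, cx_UU, cy_UU, norm_mul, mul_pow, RCLike.norm_ofReal, sq_abs]
  ring

/-- Local condition at the limit. -/
lemma eventually_local {z₀ : 𝕂} (hz₀ : ‖z₀‖ < 1 / 2) {w₀ κ ε : ℝ} (hw₀ : w₀ = 1 / 2 - 2 * ‖z₀‖ ^ 2)
    (hκ0 : 0 < κ) (hκ1 : κ < 1) (hκε : 2 * (1 - κ) < ε) :
    ∀ᶠ η : ℝ in 𝓝 0, ∀ p ∈ Icc (0:ℝ) 1 ×ˢ closedBall (0 : Xsp 𝕂) 1,
      ‖UU z₀ w₀ κ η p.2 - p.2‖ < ε ∧ (q p.1 (UU z₀ w₀ κ η p.2) < 1 ∨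
        (0 < DD z₀ w₀ κ η p.2 ∧ (κ ^ 2 * (4 * DD z₀ w₀ κ η p.2)
            + κ ^ 4 * ‖cy p.2 - (η : 𝕂) * cx p.2‖ ^ 2) * nn z₀ w₀ η
          < (1 - tt w₀ η ^ 2 / 2) * (1 + tt w₀ η) * (4 * DD z₀ w₀ κ η p.2))) := by
  have hx := continuous_cx (𝕂 := 𝕂)
  have hy := continuous_cy (𝕂 := 𝕂)
  have hz := continuous_cz (𝕂 := 𝕂)
  have hr := RCLike.continuous_ofReal (K := 𝕂)
  have ht := continuous_tt w₀
  have hn := continuous_nn z₀ w₀
  apply (isCompact_Icc.prod (isCompact_closedBall (0 : Xsp 𝕂) 1)).eventually_forall_of_forall_eventually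
  rintro ⟨s, v⟩ ⟨hs, hv⟩
  simp only at hs hv
  rw [mem_closedBall_zero_iff] at hv
  have cU := continuousAt_UU z₀ w₀ κ s v
  have cF := continuousAt_Ff z₀ w₀ s v
  have cD : ContinuousAt (fun p : ℝ × ℝ × Xsp 𝕂 => DD z₀ w₀ κ p.1 p.2.2) (0, (s, v)) := by
    unfold DD
    apply ContinuousAt.sub
    · exact (cF.norm.pow 2).div_const 2
    · exact ((hz.continuousAt.comp cU).norm.pow 2).const_mul 2
  have cq : ContinuousAt (fun p : ℝ × ℝ × Xsp 𝕂 => q p.2.1 (UU z₀ w₀ κ p.1 p.2.2)) (0, (s, v)) := by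
    have e : (fun p : ℝ × ℝ × Xsp 𝕂 => q p.2.1 (UU z₀ w₀ κ p.1 p.2.2))
      = fun p => ‖Ff z₀ w₀ p.1 p.2.2‖ ^ 2 + κ ^ 2 * ‖cy p.2.2 - (p.1 : 𝕂) * cx p.2.2‖ ^ 2
      + p.2.1 * (κ ^ 2 * ‖cy p.2.2 - (p.1 : 𝕂) * cx p.2.2‖ ^ 2) - p.2.1 ^ 2 * DD z₀ w₀ κ p.1 p.2.2 := by
      funext p
      exact q_UU _ _ _ _ _ _
    rw [e]
    apply ContinuousAt.sub
    · apply ContinuousAt.add
      · apply ContinuousAt.add (cF.norm.pow 2)
        apply Continuous.continuousAt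
        fun_prop
      · apply Continuous.continuousAt
        fun_prop
    · apply ContinuousAt.mul _ cD
      apply Continuous.continuousAt
      fun_prop
  -- first part
  have h1 : ∀ᶠ p : ℝ × ℝ × Xsp 𝕂 in 𝓝 (0, (s, v)), ‖UU z₀ w₀ κ p.1 p.2.2 - p.2.2‖ < ε := by
    have c1 : ContinuousAt (fun p : ℝ × ℝ × Xsp 𝕂 => ‖UU z₀ w₀ κ p.1 p.2.2 - p.2.2‖) (0, (s, v)) :=
      (cU.sub (continuous_snd.comp continuous_snd).continuousAt).norm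
    apply c1.tendsto.eventually_lt_const
    simp only
    -- at the limit
    have e : UU z₀ w₀ κ 0 v - v = ((κ - 1 : ℝ) : 𝕂) • (v - cx v • mk3 1 0 z₀) := by
      rw [UU, vv_zero, Ff_zero]
      push_cast
      module
    rw [e, norm_smul, RCLike.norm_ofReal, abs_of_neg (by linarith)]
    have hm : ‖(mk3 1 0 z₀ : Xsp 𝕂)‖ ≤ 1 := by
      apply norm_le_of_q zero_le_one
      intro r hr'
      have h0 := norm_nonneg z₀
      have h1 : ‖z₀‖ ^ 2 ≤ 1 / 4 := by nlinarith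
      have h2 : 2 * r ^ 2 * ‖z₀‖ ^ 2 ≤ 2 * r ^ 2 * (1 / 4) := by gcongr
      simp only [q, cx_mk, cy_mk, cz_mk, norm_one, norm_zero]
      nlinarith
    have hcx : ‖cx v‖ ≤ 1 := by
      have h2 := q_le (s := 0) (by simp) v
      simp [q] at h2
      have h3 := norm_nonneg (cx v)
      have h4 := norm_nonneg v
      have h5 := sq_nonneg ‖cy v‖
      nlinarith
    have h3 : ‖v - cx v • (mk3 1 0 z₀ : Xsp 𝕂)‖ ≤ 2 := by
      refine (norm_sub_le _ _).trans ?_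
      rw [norm_smul]
      have := mul_le_mul hcx hm (norm_nonneg _) zero_le_one
      linarith
    have h4 : -(κ - 1) * ‖v - cx v • (mk3 1 0 z₀ : Xsp 𝕂)‖ ≤ -(κ - 1) * 2 := by
      apply mul_le_mul_of_nonneg_left h3; linarith
    linarith
  -- second part
  have h2 : ∀ᶠ p : ℝ × ℝ × Xsp 𝕂 in 𝓝 (0, (s, v)), (q p.2.1 (UU z₀ w₀ κ p.1 p.2.2) < 1 ∨
        (0 < DD z₀ w₀ κ p.1 p.2.2 ∧ (κ ^ 2 * (4 * DD z₀ w₀ κ p.1 p.2.2)
            + κ ^ 4 * ‖cy p.2.2 - (p.1 : 𝕂) * cx p.2.2‖ ^ 2) * nn z₀ w₀ p.1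
          < (1 - tt w₀ p.1 ^ 2 / 2) * (1 + tt w₀ p.1) * (4 * DD z₀ w₀ κ p.1 p.2.2))) := by
    rcases lt_or_ge (q s (UU z₀ w₀ κ 0 v)) 1 with h | h
    · filter_upwards [cq.tendsto.eventually_lt_const h] with p hp
      exact Or.inl hp
    · obtain ⟨hxn, hyn, hzn⟩ := limit_operator hz₀ hw₀ hκ0 hκ1 hs hv h
      have hD : 0 < DD z₀ w₀ κ 0 v := by
        rw [DD, cz_UU, Ff_zero, hxn]
        have e : cx v * z₀ + (κ : 𝕂) * (cz v - z₀ * cx v) = ((1 - κ : ℝ) : 𝕂) * (z₀ * cx v) + (κ : 𝕂) * cz v := by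
          push_cast; ring
        rw [e]
        have h1 : ‖((1 - κ : ℝ) : 𝕂) * (z₀ * cx v) + (κ : 𝕂) * cz v‖
            ≤ (1 - κ) * ‖z₀‖ + κ * (1 / 2) := by
          refine (norm_add_le _ _).trans ?_
          rw [norm_mul, norm_mul (κ : 𝕂), RCLike.norm_ofReal, RCLike.norm_ofReal, abs_of_pos hκ0,
            abs_of_pos (by linarith : (0:ℝ) < 1 - κ), norm_mul, hxn, mul_one]
          gcongr
        have h2 : (1 - κ) * ‖z₀‖ + κ * (1 / 2) < 1 / 2 := by nlinarith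
        have h3 := norm_nonneg (((1 - κ : ℝ) : 𝕂) * (z₀ * cx v) + (κ : 𝕂) * cz v)
        nlinarith
      have c3 : ContinuousAt (fun p : ℝ × ℝ × Xsp 𝕂 => (κ ^ 2 * (4 * DD z₀ w₀ κ p.1 p.2.2)
            + κ ^ 4 * ‖cy p.2.2 - (p.1 : 𝕂) * cx p.2.2‖ ^ 2) * nn z₀ w₀ p.1) (0, (s, v)) := by
        apply ContinuousAt.mul
        · apply ContinuousAt.add
          · exact (cD.const_mul 4).const_mul _
          · apply Continuous.continuousAt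
            fun_prop
        · exact (hn.comp continuous_fst).continuousAt
      have c4 : ContinuousAt (fun p : ℝ × ℝ × Xsp 𝕂 => (1 - tt w₀ p.1 ^ 2 / 2) * (1 + tt w₀ p.1) * (4 * DD z₀ w₀ κ p.1 p.2.2)) (0, (s, v)) := by
        apply ContinuousAt.mul
        · apply Continuous.continuousAt
          fun_prop
        · exact cD.const_mul 4
      have hlt : (κ ^ 2 * (4 * DD z₀ w₀ κ 0 v)
            + κ ^ 4 * ‖cy v - ((0:ℝ) : 𝕂) * cx v‖ ^ 2) * nn z₀ w₀ 0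
          < (1 - tt w₀ 0 ^ 2 / 2) * (1 + tt w₀ 0) * (4 * DD z₀ w₀ κ 0 v) := by
        rw [nn_zero, tt_zero, hyn]
        simp
        have : κ ^ 2 < 1 := by nlinarith
        nlinarith
      filter_upwards [cD.tendsto.eventually_const_lt hD, c3.tendsto.eventually_lt c4.tendsto hlt] with p hp1 hp2
      exact Or.inr ⟨hp1, hp2⟩
  filter_upwards [h1, h2] with p hp1 hp2
  exact ⟨hp1, hp2⟩

/-- The points in the relative interior of the face are good. -/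
lemma good_face {z₀ : 𝕂} (hz₀ : ‖z₀‖ < 1 / 2) : GoodAt 𝕂 (mk3 1 0 z₀ : Xsp 𝕂) := by
  intro ε hε
  obtain ⟨w₀, hw₀⟩ : ∃ w₀ : ℝ, w₀ = 1 / 2 - 2 * ‖z₀‖ ^ 2 := ⟨_, rfl⟩
  have hz2 : ‖z₀‖ ^ 2 < 1 / 4 := by have := norm_nonneg z₀; nlinarith
  have hw0 : 0 < w₀ := by rw [hw₀]; linarith
  obtain ⟨κ, hκ0, hκ1, hκε⟩ : ∃ κ : ℝ, 0 < κ ∧ κ < 1 ∧ 2 * (1 - κ) < ε := by
    refine ⟨1 - min (ε / 4) (1 / 2), ?_, ?_, ?_⟩
    · have : min (ε / 4) (1 / 2) ≤ (1:ℝ) / 2 := min_le_right _ _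
      linarith
    · have : 0 < min (ε / 4) ((1:ℝ) / 2) := by positivity
      linarith
    · have : min (ε / 4) ((1:ℝ) / 2) ≤ ε / 4 := min_le_left _ _
      linarith
  have hev := eventually_local hz₀ hw₀ hκ0 hκ1 hκε
  have ev2 : ∀ᶠ η : ℝ in 𝓝 0, tt w₀ η < 1 := by
    have := (continuous_tt w₀).tendsto 0
    rw [tt_zero] at this
    exact this.eventually_lt_const one_pos
  have ev3 : ∀ᶠ η : ℝ in 𝓝[>] 0, 0 < η := eventually_mem_nhdsWithin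
  obtain ⟨η, ⟨hη, ht1⟩, hη0⟩ := (((hev.and ev2).filter_mono nhdsWithin_le_nhds).and ev3).exists
  have ht0 : 0 < tt w₀ η := by unfold tt; positivity
  have hηt : η ^ 2 = 2 * tt w₀ η * w₀ := by unfold tt; field_simp
  set t := tt w₀ η with ht
  have htI : t ∈ Icc (0:ℝ) 1 := ⟨ht0.le, ht1.le⟩
  have hn : nn z₀ w₀ η = 1 + η ^ 2 + t ^ 2 * w₀ := by
    rw [nn, ← ht, hw₀]
    rw [hw₀] at hηt
    linear_combination t * hηt
  have hnpos : 0 < nn z₀ w₀ η := by rw [hn]; positivity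
  set n := Real.sqrt (nn z₀ w₀ η) with hndef
  have hn0 : 0 < n := Real.sqrt_pos.2 hnpos
  have hnsq : n ^ 2 = nn z₀ w₀ η := Real.sq_sqrt hnpos.le
  -- norm of v₀
  have hqv : ∀ s : ℝ, q s (vv z₀ η) = 1 + η ^ 2 + t ^ 2 * w₀ - w₀ * (s - t) ^ 2 := by
    intro s
    rw [q, cx_vv, cy_vv, cz_vv, norm_one, RCLike.norm_ofReal, sq_abs, hw₀]
    rw [hw₀] at hηt
    linear_combination s * hηt
  have hvn : ‖vv z₀ η‖ = n := by
    apply le_antisymm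
    · apply norm_le_of_q hn0.le
      intro s hs
      rw [hqv, hnsq, hn]
      have : 0 ≤ w₀ * (s - t) ^ 2 := by positivity
      linarith
    · have h1 := q_le htI (vv z₀ η)
      rw [hqv, sub_self] at h1
      have h2 : n ^ 2 ≤ ‖vv z₀ η‖ ^ 2 := by rw [hnsq, hn]; linarith
      exact abs_le_of_sq_le_sq' h2 (norm_nonneg _) |>.2
  -- main estimate
  have hA : 0 < 1 - t ^ 2 / 2 := by nlinarith
  have hB : 0 < 1 + t := by linarith
  have hmain : ∀ v : Xsp 𝕂, ‖v‖ ≤ 1 → ∀ s ∈ Icc (0:ℝ) 1, q s (UU z₀ w₀ κ η v) ≤ 1 ∧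
      (q s (UU z₀ w₀ κ η v) = 1 → cy v = (η : 𝕂) * cx v ∧ cz v = z₀ * cx v ∧ ‖v‖ = 1) := by
    intro v hv s hs
    obtain ⟨-, hP⟩ := hη (s, v) ⟨hs, by rw [mem_closedBall_zero_iff]; exact hv⟩
    simp only at hP
    rcases hP with hP | ⟨hD, hP⟩
    · exact ⟨hP.le, fun h => absurd h hP.ne⟩
    have hqt : q t v ≤ ‖v‖ ^ 2 := q_le htI v
    have hv2 : ‖v‖ ^ 2 ≤ 1 := by have := norm_nonneg v; nlinarith
    set D := DD z₀ w₀ κ η v with hDdef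
    set F := Ff z₀ w₀ η v with hF
    set X := ‖cy v - (η : 𝕂) * cx v‖ ^ 2 with hX
    set Y := ‖cz v - z₀ * cx v‖ ^ 2 with hY
    have hX0 : 0 ≤ X := by positivity
    have hY0 : 0 ≤ Y := by positivity
    -- Lagrange
    have hlag := lagrange (1 - t ^ 2 / 2) (1 + t) (2 * t ^ 2) η (cx v) (cy v) (cz v) z₀
    have hFn : n ^ 2 * ‖F‖ ^ 2 = ‖((1 - t ^ 2 / 2 : ℝ) : 𝕂) * cx v + ((1 + t : ℝ) : 𝕂) * (η:𝕂) * cy v
        + ((2 * t ^ 2 : ℝ) : 𝕂) * conj z₀ * cz v‖ ^ 2 := by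
      have hcancel : ∀ a : ℝ, n ^ 2 * (n⁻¹ * a) ^ 2 = a ^ 2 := fun a => by field_simp
      rw [hF, Ff, norm_mul, RCLike.norm_ofReal, ← hndef, abs_of_pos (by positivity), hcancel]
    have hL : q t v * nn z₀ w₀ η ≥ nn z₀ w₀ η * ‖F‖ ^ 2 + (1 - t ^ 2 / 2) * (1 + t) * X
        + (1 - t ^ 2 / 2) * (2 * t ^ 2) * Y := by
      have e1 : q t v * nn z₀ w₀ η = ((1 - t ^ 2 / 2) * ‖cx v‖ ^ 2 + (1 + t) * ‖cy v‖ ^ 2 + 2 * t ^ 2 * ‖cz v‖ ^ 2)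
        * ((1 - t ^ 2 / 2) + (1 + t) * η ^ 2 + 2 * t ^ 2 * ‖z₀‖ ^ 2) := by rw [q, nn]
      rw [e1, hlag, ← hFn, hnsq]
      have : 0 ≤ (1 + t) * (2 * t ^ 2) * ‖(η:𝕂) * cz v - z₀ * cy v‖ ^ 2 := by positivity
      linarith
    have hq : q s (UU z₀ w₀ κ η v) = ‖F‖ ^ 2 + κ ^ 2 * X + s * (κ ^ 2 * X) - s ^ 2 * D := q_UU _ _ _ _ _ _
    have h1 : 4 * D * (s * (κ ^ 2 * X) - s ^ 2 * D) ≤ (κ ^ 2 * X) ^ 2 := by
      nlinarith [sq_nonneg (κ ^ 2 * X - 2 * s * D)]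
    set N := nn z₀ w₀ η with hN
    have h2 : 4 * D * N * q s (UU z₀ w₀ κ η v) ≤ 4 * D * (N * ‖F‖ ^ 2)
        + X * ((κ ^ 2 * (4 * D) + κ ^ 4 * X) * N) := by
      rw [hq]
      have : N * (4 * D * (s * (κ ^ 2 * X) - s ^ 2 * D)) ≤ N * (κ ^ 2 * X) ^ 2 := by gcongr
      nlinarith
    have h3 : X * ((κ ^ 2 * (4 * D) + κ ^ 4 * X) * N) ≤ X * ((1 - t ^ 2 / 2) * (1 + t) * (4 * D)) := by
      gcongr
    have h4 : 4 * D * N * q s (UU z₀ w₀ κ η v) ≤ 4 * D * N * (q t v) - 4 * D * ((1 - t ^ 2 / 2) * (2 * t ^ 2) * Y) := by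
      have h5 := mul_le_mul_of_nonneg_left hL (by positivity : 0 ≤ 4 * D)
      linarith
    have hY1 : 0 ≤ 4 * D * ((1 - t ^ 2 / 2) * (2 * t ^ 2) * Y) := by positivity
    have hDN : 0 < 4 * D * N := by positivity
    have h6 : q s (UU z₀ w₀ κ η v) ≤ q t v := by
      have : 4 * D * N * q s (UU z₀ w₀ κ η v) ≤ 4 * D * N * q t v := by linarith
      exact le_of_mul_le_mul_left this hDN
    refine ⟨by linarith, fun heq => ?_⟩
    have hqt1 : q t v = 1 := by linarith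
    have hvn1 : ‖v‖ = 1 := by
      have := norm_nonneg v
      nlinarith
    rw [heq, hqt1] at h4
    have hYz : Y = 0 := by
      have : 4 * D * ((1 - t ^ 2 / 2) * (2 * t ^ 2) * Y) ≤ 0 := by linarith
      have h7 : 4 * D * ((1 - t ^ 2 / 2) * (2 * t ^ 2) * Y) = 0 := le_antisymm this hY1
      have h8 : 4 * D * ((1 - t ^ 2 / 2) * (2 * t ^ 2)) * Y = 0 := by linarith
      rcases mul_eq_zero.1 h8 with h9 | h9
      · have : 0 < 4 * D * ((1 - t ^ 2 / 2) * (2 * t ^ 2)) := by positivity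
        linarith
      · exact h9
    have hXz : X = 0 := by
      by_contra hne
      have hXpos : 0 < X := lt_of_le_of_ne hX0 (Ne.symm hne)
      have h10 : X * ((κ ^ 2 * (4 * D) + κ ^ 4 * X) * N) < X * ((1 - t ^ 2 / 2) * (1 + t) * (4 * D)) :=
        mul_lt_mul_of_pos_left hP hXpos
      rw [heq] at h2
      have h5 := mul_le_mul_of_nonneg_left hL (by positivity : 0 ≤ 4 * D)
      rw [hqt1] at h5
      linarith
    refine ⟨?_, ?_, hvn1⟩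
    · have : ‖cy v - (η : 𝕂) * cx v‖ = 0 := by
        rw [hX] at hXz
        exact pow_eq_zero_iff (two_ne_zero) |>.1 hXz
      exact sub_eq_zero.1 (norm_eq_zero.1 this)
    · have : ‖cz v - z₀ * cx v‖ = 0 := by
        rw [hY] at hYz
        exact pow_eq_zero_iff (two_ne_zero) |>.1 hYz
      exact sub_eq_zero.1 (norm_eq_zero.1 this)
  -- the operator
  set U : Xsp 𝕂 →L[𝕂] Xsp 𝕂 := LinearMap.toContinuousLinearMap (UUlin z₀ w₀ κ η) with hU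
  have hUa : ∀ v, U v = UU z₀ w₀ κ η v := fun v => rfl
  have hninv : ‖((n⁻¹ : ℝ) : 𝕂)‖ = n⁻¹ := by
    rw [RCLike.norm_ofReal, abs_of_pos (by positivity)]
  refine ⟨U, ((n⁻¹ : ℝ) : 𝕂) • vv z₀ η, ?_, ?_, ?_, ?_, ?_⟩
  · rw [norm_smul, hninv, hvn, inv_mul_cancel₀ hn0.ne']
  · let _ : NormedSpace ℝ (Xsp 𝕂) := NormedSpace.restrictScalars ℝ 𝕂 (Xsp 𝕂)
    apply ContinuousLinearMap.opNorm_le_of_unit_norm hε.le
    intro v hv
    have := (hη (0, v) ⟨by simp, by rw [mem_closedBall_zero_iff, hv]⟩).1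
    exact this.le
  · rw [map_smul, hUa]
    have hF : Ff z₀ w₀ η (vv z₀ η) = (n : 𝕂) := by
      rw [Ff, cx_vv, cy_vv, cz_vv, ← hndef]
      have e : (((1 - tt w₀ η ^ 2 / 2 : ℝ)) : 𝕂) * 1 + (((1 + tt w₀ η : ℝ)) : 𝕂) * (η : 𝕂) * (η : 𝕂)
          + ((2 * tt w₀ η ^ 2 : ℝ) : 𝕂) * conj z₀ * z₀ = ((nn z₀ w₀ η : ℝ) : 𝕂) := by
        rw [nn, mul_assoc _ (conj z₀) z₀, RCLike.conj_mul]
        push_cast
        ring
      rw [e, ← hnsq, ← RCLike.ofReal_mul]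
      congr 1
      field_simp
    rw [UU, hF, cx_vv, one_smul, sub_self, smul_zero, add_zero, smul_smul, ← RCLike.ofReal_mul,
      inv_mul_cancel₀ hn0.ne', RCLike.ofReal_one, one_smul]
  · intro x hx
    rw [hUa]
    apply norm_le_of_q zero_le_one
    intro s hs
    rw [one_pow]
    exact (hmain x hx s hs).1
  · intro x hx hUx
    rw [hUa] at hUx
    obtain ⟨s, hs, hqs⟩ := exists_q_eq (UU z₀ w₀ κ η x)
    rw [hUx, one_pow] at hqs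
    obtain ⟨h1, h2, h3⟩ := (hmain x hx s hs).2 hqs
    have hxv : x = cx x • vv z₀ η := by
      apply Xsp.ext
      · rw [cx_smul, cx_vv, mul_one]
      · rw [cy_smul, cy_vv, h1]; ring
      · rw [cz_smul, cz_vv, h2]; ring
    refine ⟨cx x * (n : 𝕂), ?_, ?_⟩
    · have h4 : ‖x‖ = ‖cx x‖ * n := by
        conv_lhs => rw [hxv]
        rw [norm_smul, hvn]
      rw [norm_mul, RCLike.norm_ofReal, abs_of_pos hn0, ← h4, h3]
    · rw [smul_smul, mul_assoc, ← RCLike.ofReal_mul, mul_inv_cancel₀ hn0.ne', RCLike.ofReal_one,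
        mul_one]
      exact hxv

/-- All points of the sphere are good. -/
theorem good_all (m : Xsp 𝕂) (hm : ‖m‖ = 1) : GoodAt 𝕂 m := by
  by_cases hex : ∃ s : ℝ, 0 < s ∧ s ≤ 1 ∧ q s m = 1
  · obtain ⟨s, h0, h1, h2⟩ := hex
    exact good_exposed hm h0 h1 h2
  push Not at hex
  have hle : ∀ s ∈ Icc (0:ℝ) 1, q s m ≤ 1 := fun s hs => by
    have := q_le hs m
    rwa [hm, one_pow] at this
  obtain ⟨s, hs, hqs⟩ := exists_q_eq m
  rw [hm, one_pow] at hqs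
  have hs0 : s = 0 := by
    by_contra hne
    exact hex s (lt_of_le_of_ne hs.1 (Ne.symm hne)) hs.2 hqs
  rw [hs0] at hqs
  have hlt : ∀ s : ℝ, 0 < s → s ≤ 1 → q s m < 1 := fun s h0 h1 =>
    lt_of_le_of_ne (hle s ⟨h0.le, h1⟩) (hex s h0 h1)
  set W : ℝ := ‖cx m‖ ^ 2 / 2 - 2 * ‖cz m‖ ^ 2 with hW
  have hq : ∀ s : ℝ, q s m = q 0 m + s * ‖cy m‖ ^ 2 - s ^ 2 * W := by
    intro s; rw [q, q, hW]; ring
  have hlt' : ∀ s : ℝ, 0 < s → s ≤ 1 → ‖cy m‖ ^ 2 < s * W := by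
    intro s h0 h1
    have := hlt s h0 h1
    rw [hq, hqs] at this
    have h2 : s * ‖cy m‖ ^ 2 < s * (s * W) := by nlinarith
    exact lt_of_mul_lt_mul_left h2 h0.le
  have hW0 : 0 < W := by
    have := hlt' 1 one_pos le_rfl
    have h0 := sq_nonneg ‖cy m‖
    linarith
  have hy : cy m = 0 := by
    by_contra hne
    have hpos : 0 < ‖cy m‖ ^ 2 := by positivity
    have h1 := hlt' (min 1 (‖cy m‖ ^ 2 / W)) (by positivity) (min_le_left _ _)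
    have h2 : min 1 (‖cy m‖ ^ 2 / W) * W ≤ ‖cy m‖ ^ 2 / W * W := by
      gcongr; exact min_le_right _ _
    rw [div_mul_cancel₀ _ hW0.ne'] at h2
    linarith
  have hx : ‖cx m‖ = 1 := by
    have : q 0 m = ‖cx m‖ ^ 2 := by rw [q, hy]; simp
    rw [this] at hqs
    have := norm_nonneg (cx m)
    nlinarith
  have hx0 : cx m ≠ 0 := by rw [← norm_pos_iff, hx]; exact one_pos
  have hz : ‖(cx m)⁻¹ * cz m‖ < 1 / 2 := by
    rw [norm_mul, norm_inv, hx, inv_one, one_mul]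
    rw [hW, hx] at hW0
    have := norm_nonneg (cz m)
    nlinarith
  have hmeq : m = cx m • (mk3 1 0 ((cx m)⁻¹ * cz m) : Xsp 𝕂) := by
    apply Xsp.ext
    · simp
    · simp [hy]
    · simp [hx0]
  rw [hmeq]
  exact (good_face hz).smul hx

end Pool.Agent.ASE
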